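import Pool.Agent.Helper60.TTA

/-!
# The Rieffel - van Daele operators (explicit form of helper60's theorem)
-/

open scoped InnerProductSpace Topology BoundedContinuousFunction
open ContinuousLinearMap Filter MeasureTheory

namespace Pool.Agent.Helper43.TTF

open Pool.Agent.Helper23 Pool.Agent.Helper23.TTA

variable {H : Type*} [NormedAddCommGroup H] [InnerProductSpace ℂ H] [CompleteSpace H]

/-- the Rieffel - van Daele operators satisfy the interface -/
theorem ttdata (A : VonNeumannAlgebra H) (ξ : H) (hcyc : Dense (orb A ξ : Set H))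
    (hsep : ∀ a ∈ A, a ξ = 0 → a = 0) : TTData A ξ (Rop A ξ) (Dop A ξ) := by
  have hcyc' : Dense (orb A.commutant ξ : Set H) := dense_of_separating A ξ hsep
  have hDconj : ∀ (c : ℂ) (v : H), Dop A ξ (c • v) = (starRingEnd ℂ) c • Dop A ξ v := by
    intro c v
    rw [smul_split c v, smul_split ((starRingEnd ℂ) c), map_add, map_smul, map_smul, Dop_I,
      Complex.conj_re, Complex.conj_im, smul_neg, neg_smul]
  refine ⟨?_, ?_, ?_, ?_, ?_, hDconj, ?_, ?_, ?_, ?_, ?_⟩
  · -- star R = R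
    apply ContinuousLinearMap.ext
    intro v
    apply ext_inner_right ℂ
    intro w
    rw [inner_star_left]
    apply inner_ext_rho
    · rw [rho_R]
    · rw [← rho_I_left, ← rho_I_left, rho_I_I, rho_I_I, rho_R, map_smul]
  · intro v
    rw [rho_R_self]; positivity
  · intro v
    rw [rho_R_self]
    have h1 := norm_P_le A ξ v
    have h2 := norm_Q_le A ξ v
    nlinarith [norm_nonneg (P A ξ v), norm_nonneg (Q A ξ v), norm_nonneg v]
  · intro v hv
    have h1 := rho_R_self A ξ v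
    rw [hv, inner_zero_right, Complex.zero_re] at h1
    have hP : P A ξ v = 0 := by
      have : ‖P A ξ v‖ ^ 2 = 0 := by nlinarith [sq_nonneg ‖P A ξ v‖, sq_nonneg ‖Q A ξ v‖]
      simpa using this
    have hQ : Q A ξ v = 0 := by
      have : ‖Q A ξ v‖ ^ 2 = 0 := by nlinarith [sq_nonneg ‖P A ξ v‖, sq_nonneg ‖Q A ξ v‖]
      simpa using this
    have hQ' : P A ξ (Complex.I • v) = 0 := by rw [← I_smul_Q, hQ, smul_zero]
    have hsa : ∀ b ∈ A, star b = b → ⟪b ξ, v⟫_ℂ = 0 := by
      intro b hb hb'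
      have hbK := P_of_mem A ξ (mem_K_of A ξ hb hb')
      apply inner_zero_of
      · rw [← hbK, rho_P, hP, rho, inner_zero_right, Complex.zero_re]
      · rw [← hbK, rho_P, hQ', rho, inner_zero_right, Complex.zero_re]
    apply zero_of_dense hcyc
    rintro _ ⟨a, ha, rfl⟩
    obtain ⟨a1, h1, a2, h2, hs1, hs2, hdec, -⟩ := sa_decomp ha
    rw [hdec, add_apply, inner_add_left, hsa a1 h1 hs1, smul_apply, inner_smul_left, hsa a2 h2 hs2,
      mul_zero, add_zero]
  · intro v hv
    have h1 := rho_R_self A ξ v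
    rw [hv, inner_smul_right, inner_self_eq_norm_sq_to_K] at h1
    have h2 : ((2 : ℂ) * ((‖v‖ : ℂ)) ^ 2).re = 2 * ‖v‖ ^ 2 := by norm_cast
    have h1' : 2 * ‖v‖ ^ 2 = ‖P A ξ v‖ ^ 2 + ‖Q A ξ v‖ ^ 2 := by rw [← h1, ← h2]; rfl
    have hP := norm_P_le A ξ v
    have hQ := norm_Q_le A ξ v
    have hPe : ‖P A ξ v‖ = ‖v‖ := by
      apply le_antisymm hP
      nlinarith [norm_nonneg (P A ξ v), norm_nonneg (Q A ξ v), norm_nonneg v]
    have hQe : ‖Q A ξ v‖ = ‖v‖ := by
      apply le_antisymm hQ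
      nlinarith [norm_nonneg (P A ξ v), norm_nonneg (Q A ξ v), norm_nonneg v]
    have hvK : v ∈ K A ξ := mem_K_of_norm A ξ hPe
    have hIvK : Complex.I • v ∈ K A ξ := by
      apply mem_K_of_norm
      rw [← I_smul_Q, norm_smul, norm_smul, hQe]
    have hsa : ∀ a' ∈ A.commutant, star a' = a' → ∀ k ∈ K A ξ, (⟪a' ξ, k⟫_ℂ).im = 0 := by
      intro a' ha ha' k hk
      have hcl : IsClosed {k : H | (⟪a' ξ, k⟫_ℂ).im = 0} :=
        isClosed_eq (Complex.continuous_im.comp (continuous_const.inner continuous_id))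
          continuous_const
      have hsub : (K0 A ξ : Set H) ⊆ {k : H | (⟪a' ξ, k⟫_ℂ).im = 0} := by
        rintro _ ⟨b, hb, hb', rfl⟩
        change (⟪a' ξ, b ξ⟫_ℂ).im = 0
        rw [← inner_conj_symm, Complex.conj_im, inner_real A ξ ha ha' hb hb', neg_zero]
      exact closure_minimal hsub hcl hk
    have hsa' : ∀ a' ∈ A.commutant, star a' = a' → ⟪a' ξ, v⟫_ℂ = 0 := by
      intro a' ha ha'
      have e1 := hsa a' ha ha' v hvK
      have e2 := hsa a' ha ha' _ hIvK
      rw [inner_smul_right] at e2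
      apply Complex.ext
      · simpa using e2
      · exact e1
    apply zero_of_dense hcyc'
    rintro _ ⟨a, ha, rfl⟩
    obtain ⟨a1, h1, a2, h2, hs1, hs2, hdec, -⟩ := sa_decomp ha
    rw [hdec, add_apply, inner_add_left, hsa' a1 h1 hs1, smul_apply, inner_smul_left,
      hsa' a2 h2 hs2, mul_zero, add_zero]
  · -- D_symm
    intro v w
    apply inner_ext_rho
    · rw [← rho_D, rho_comm]
    · have h1 : (⟪v, Dop A ξ w⟫_ℂ).im = rho v (Dop A ξ (Complex.I • w)) := by
        rw [Dop_I, rho_neg_right, rho_I_right, neg_neg]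
      rw [h1, ← rho_D, rho_comm, rho_I_left]
  · -- D_sq
    intro v
    rw [map_sub, map_smul, two_smul, Rop_apply, Rop_apply, Dop_apply, Dop_apply, map_sub, Q_sub,
      map_add, Q_add, P_P, Q_Q]
    abel
  · -- D_R
    intro v
    rw [two_smul, Rop_apply, Rop_apply, Dop_apply, Dop_apply, map_add, Q_add, map_sub, Q_sub, P_P,
      Q_Q]
    abel
  · -- D_mem
    have hsa : ∀ b ∈ A, star b = b → Dop A ξ (b ξ) = (2 : ℂ) • b ξ - Rop A ξ (b ξ) := by
      intro b hb hb'
      rw [Dop_apply, Rop_apply, P_of_mem A ξ (mem_K_of A ξ hb hb'), two_smul]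
      abel
    intro a ha
    obtain ⟨a1, h1, a2, h2, hs1, hs2, hdec, hdec'⟩ := sa_decomp ha
    have e1 : a ξ = a1 ξ + Complex.I • a2 ξ := by rw [hdec]; rfl
    have e2 : (star a) ξ = a1 ξ - Complex.I • a2 ξ := by rw [hdec']; rfl
    rw [e1, e2, map_add, Dop_I, hsa a1 h1 hs1, hsa a2 h2 hs2, map_sub, map_smul, smul_sub, smul_sub,
      smul_comm (2 : ℂ) Complex.I]
    abel
  · -- D_comm
    have hsa : ∀ b ∈ A.commutant, star b = b → Dop A ξ (b ξ) = Rop A ξ (b ξ) := by
      intro b hb hb'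
      rw [Dop_apply, Rop_apply, Q_comm_zero A ξ hb hb', sub_zero, add_zero]
    intro a ha
    obtain ⟨a1, h1, a2, h2, hs1, hs2, hdec, hdec'⟩ := sa_decomp ha
    have e1 : a ξ = a1 ξ + Complex.I • a2 ξ := by rw [hdec]; rfl
    have e2 : (star a) ξ = a1 ξ - Complex.I • a2 ξ := by rw [hdec']; rfl
    rw [e1, e2, map_add, Dop_I, hsa a1 h1 hs1, hsa a2 h2 hs2, map_sub, map_smul]
    abel

end Pool.Agent.Helper43.TTF
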