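import Pool.Agent.Helper43.TTF.F
import Pool.Agent.Helper43.TTF.P
import Pool.Agent.Helper23.Spec

/-!
# Tomita's theorem for a pair with a conditional expectation
-/

open scoped InnerProductSpace Topology BoundedContinuousFunction
open ContinuousLinearMap Filter MeasureTheory

namespace Pool.Agent.Helper43.TTF

open Pool.Agent.Helper23

variable {H : Type*} [NormedAddCommGroup H] [InnerProductSpace ℂ H] [CompleteSpace H]
variable {R : H →L[ℂ] H} {D : H →L[ℝ] H} {Ψ : (ℝ →ᵇ ℂ) →⋆ₐ[ℂ] (H →L[ℂ] H)} {J : H →L[ℝ] H}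

lemma R_xi {A : VonNeumannAlgebra H} {ξ : H} (h' : TTData A ξ R D) : R ξ = ξ := by
  have h1 := h'.D_mem 1 (one_mem _)
  have h2 := h'.D_comm 1 (one_mem _)
  rw [star_one, one_apply_eq_self] at h1 h2
  rw [h1] at h2
  have h3 : (2 : ℂ) • ξ = (2 : ℂ) • R ξ := by
    rw [two_smul ℂ (R ξ)]
    exact sub_eq_iff_eq_add.1 h2
  exact (smul_right_injective H (two_ne_zero : (2 : ℂ) ≠ 0) h3).symm

lemma expB_zero : expB 0 = 1 := by
  ext ρ
  rw [expB_apply, one_bcf]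
  simp

/-- `J A J = A'` (one inclusion). -/
lemma cj_mem {A : VonNeumannAlgebra H} {ξ : H} (h' : TTData A ξ R D)
    (hcyc : Dense (orb A ξ : Set H)) (hcyc' : Dense (orb A.commutant ξ : Set H))
    (h : FC R D Ψ) (hJ : JD D Ψ J) {a : H →L[ℂ] H} (ha : a ∈ A) : hJ.cj a ∈ A.commutant := by
  have h1 := tomita h'.symm hcyc' (by rwa [VonNeumannAlgebra.commutant_commutant]) h.symm hJ.symm
    (x' := a) (by rwa [VonNeumannAlgebra.commutant_commutant]) 0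
  rw [neg_zero, expB_zero, map_one, one_mul, mul_one] at h1
  exact h1

/-- Tomita's theorem -/
theorem tomita' {A : VonNeumannAlgebra H} {ξ : H} (h' : TTData A ξ R D)
    (hcyc : Dense (orb A ξ : Set H)) (hcyc' : Dense (orb A.commutant ξ : Set H))
    (h : FC R D Ψ) (hJ : JD D Ψ J) {a : H →L[ℂ] H} (ha : a ∈ A) (t : ℝ) :
    Ψ (expB t) * a * Ψ (expB (-t)) ∈ A := by
  have h1 := tomita h' hcyc hcyc' h hJ (cj_mem h' hcyc hcyc' h hJ ha) t
  rwa [hJ.cj_cj] at h1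

theorem modular_of {A : VonNeumannAlgebra H} {ξ : H} (h' : TTData A ξ R D)
    (hcyc : Dense (orb A ξ : Set H)) (hsep : ∀ a ∈ A, a ξ = 0 → a = 0)
    (h : FC R D Ψ) : Modular A ξ R D Ψ := by
  obtain ⟨J, hJ⟩ := h.exists_J h'
  exact ⟨h', h.psi_FR, h.psi_comm, h.psi_D, h.psi_cont, h.psi_xi (R_xi h'),
    fun t a ha => tomita' h' hcyc (dense_of_separating A ξ hsep) h hJ ha t⟩

/-! ### conditional expectations -/

variable {M N : VonNeumannAlgebra H} {ξ : H} {E : (H →L[ℂ] H) → (H →L[ℂ] H)}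

/-- the projection on the closure of `N ξ` -/
noncomputable def p0 (N : VonNeumannAlgebra H) (ξ : H) : H →L[ℂ] H :=
  (Pool.Agent.Helper23.K0 N ξ).starProjection

lemma p0_of_mem {v : H} (hv : v ∈ Pool.Agent.Helper23.K0 N ξ) : p0 N ξ v = v :=
  Submodule.starProjection_eq_self_iff.2 hv

lemma p0_mem (v : H) : p0 N ξ v ∈ Pool.Agent.Helper23.K0 N ξ :=
  Submodule.starProjection_apply_mem _ _

lemma p0_symm (v w : H) : ⟪p0 N ξ v, w⟫_ℂ = ⟪v, p0 N ξ w⟫_ℂ :=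
  Submodule.inner_starProjection_left_eq_right _ v w

lemma p0_eq {v u : H} (hu : u ∈ Pool.Agent.Helper23.K0 N ξ)
    (h : ∀ a ∈ N, ⟪a ξ, u⟫_ℂ = ⟪a ξ, v⟫_ℂ) : p0 N ξ v = u := by
  have h1 : ∀ k ∈ Pool.Agent.Helper23.K0 N ξ, ⟪k, u - v⟫_ℂ = 0 := by
    intro k hk
    refine K0_induction (p := fun k => ⟪k, u - v⟫_ℂ = 0)
      (isClosed_eq (by fun_prop) (by fun_prop)) (fun a ha => ?_) hk
    rw [inner_sub_right, h a ha, sub_self]
  have h2 : p0 N ξ (u - v) = 0 := by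
    rw [← inner_self_eq_zero (𝕜 := ℂ), p0_symm, ← inner_conj_symm, p0_of_mem (p0_mem _),
      h1 _ (p0_mem _), map_zero]
  rw [map_sub, p0_of_mem hu, sub_eq_zero] at h2
  exact h2.symm

lemma E_apply (S : Setting M N E ξ) {a : H →L[ℂ] H} (ha : a ∈ M) : p0 N ξ (a ξ) = E a ξ := by
  refine p0_eq (mem_K0 (S.E_mem a ha)) fun b hb => ?_
  have h := S.E_inner hb (one_mem N) ha
  rw [one_apply_eq_self] at h
  exact h

lemma E_star (S : Setting M N E ξ) {a : H →L[ℂ] H} (ha : a ∈ M) (ha' : star a = a) :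
    star (E a) = E a := by
  have hE := S.E_mem a ha
  have h1 : (star (E a)) ξ = E a ξ := by
    rw [← E_apply S ha]
    symm
    refine p0_eq (mem_K0 (star_mem hE)) fun b hb => ?_
    rw [inner_star_right]
    have h2 := S.E_inner (one_mem N) hb ha
    rw [one_apply_eq_self] at h2
    have h3 : ⟪E a (b ξ), ξ⟫_ℂ = ⟪a (b ξ), ξ⟫_ℂ := by
      rw [← inner_conj_symm, h2, inner_conj_symm]
    rw [h3, ← ha', inner_star_left, ha']
  have h4 : (star (E a) - E a) ξ = 0 := by rw [sub_apply, h1, sub_self]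
  exact sub_eq_zero.1 (S.sep _ (sub_mem (star_mem (S.le _ hE)) (S.le _ hE)) h4)

lemma p0_K (S : Setting M N E ξ) {v : H} (hv : v ∈ TTA.K M ξ) : p0 N ξ v ∈ TTA.K M ξ := by
  have hcl : IsClosed {v | p0 N ξ v ∈ TTA.K M ξ} :=
    (TTA.K_closed M ξ).preimage (p0 N ξ).continuous
  have hsub : (TTA.K0 M ξ : Set H) ⊆ {v | p0 N ξ v ∈ TTA.K M ξ} := by
    rintro _ ⟨a, ha, ha', rfl⟩
    rw [Set.mem_ofPred_eq, E_apply S ha]
    exact TTA.mem_K_of M ξ (S.le _ (S.E_mem a ha)) (E_star S ha ha')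
  exact closure_minimal hsub hcl hv

lemma p0_P (S : Setting M N E ξ) (v : H) : p0 N ξ (TTA.P M ξ v) = TTA.P M ξ (p0 N ξ v) := by
  have h1 : ∀ v, TTA.P M ξ (p0 N ξ (TTA.P M ξ v)) = p0 N ξ (TTA.P M ξ v) := fun v =>
    TTA.P_of_mem M ξ (p0_K S (TTA.P_mem M ξ v))
  have h2 : ∀ v w, TTA.rho (p0 N ξ v) w = TTA.rho v (p0 N ξ w) := by
    intro v w
    unfold TTA.rho
    rw [p0_symm]
  have h3 : ∀ w, TTA.rho (p0 N ξ (TTA.P M ξ v) - TTA.P M ξ (p0 N ξ v)) w = 0 := by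
    intro w
    rw [TTA.rho_sub_left, ← h1, TTA.rho_P, h2, TTA.rho_P, h1, TTA.rho_P, h2, sub_self]
  have h4 := h3 (p0 N ξ (TTA.P M ξ v) - TTA.P M ξ (p0 N ξ v))
  rw [TTA.rho_self] at h4
  exact sub_eq_zero.1 (by simpa using h4)

lemma p0_R (S : Setting M N E ξ) : p0 N ξ * TTA.Rop M ξ = TTA.Rop M ξ * p0 N ξ := by
  ext v
  rw [mul_apply_eq_comp, mul_apply_eq_comp, TTA.Rop_apply, TTA.Rop_apply, map_add, p0_P S]
  congr 1
  unfold TTA.Q
  rw [map_neg, map_smul, p0_P S, map_smul]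

end Pool.Agent.Helper43.TTF

namespace Pool.Agent.Helper23

open Pool.Agent.Helper43.TTF

variable {H : Type*} [NormedAddCommGroup H] [InnerProductSpace ℂ H] [CompleteSpace H]
variable {M N : VonNeumannAlgebra H} {ξ : H} {E : (H →L[ℂ] H) → (H →L[ℂ] H)}

/-- MODULE TT-F -/
theorem Setting.exists_modular (S : Setting M N E ξ) :
    ∃ (R : H →L[ℂ] H) (D : H →L[ℝ] H) (Ψ : (ℝ →ᵇ ℂ) →⋆ₐ[ℂ] (H →L[ℂ] H)), Modular M ξ R D Ψ ∧
      ∀ (t : ℝ), ∀ a ∈ N, Ψ (expB t) * a * Ψ (expB (-t)) ∈ N := by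
  have h' := ttdata M ξ S.cyc S.sep
  obtain ⟨Ψ, h⟩ := exists_FC h'
  have hmod := modular_of h' S.cyc S.sep h
  refine ⟨_, _, Ψ, hmod, fun t a ha => ?_⟩
  set x := Ψ (expB t) * a * Ψ (expB (-t)) with hx
  have hxM : x ∈ M := hmod.mem t a (S.le a ha)
  have hcomm := h.psi_comm _ (p0_R S)
  have hxξ : x ξ = Ψ (expB t) (a ξ) := by
    rw [hx, mul_apply_eq_comp, mul_apply_eq_comp, hmod.psi_xi, expB_apply, mul_zero,
      Complex.ofReal_zero, zero_mul, Complex.exp_zero, one_smul]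
  have h1 : p0 N ξ (x ξ) = x ξ := by
    have h2 := congrArg (fun T : H →L[ℂ] H => T (a ξ)) (hcomm (expB t))
    simp only [mul_apply_eq_comp] at h2
    rw [hxξ, h2, p0_of_mem (mem_K0 ha)]
  have h3 : (E x - x) ξ = 0 := by
    rw [sub_apply, ← E_apply S hxM, h1, sub_self]
  have h4 := S.sep _ (sub_mem (S.le _ (S.E_mem x hxM)) hxM) h3
  rw [← sub_eq_zero.1 h4]
  exact S.E_mem x hxM

end Pool.Agent.Helper23
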