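import Pool.Agent.Helper23.MDefs

/-!
# Tomita's theorem: preliminaries on the functional calculus
-/

open scoped InnerProductSpace Topology BoundedContinuousFunction
open ContinuousLinearMap Filter MeasureTheory

namespace Pool.Agent.Helper43.TTF

open Pool.Agent.Helper23

variable {H : Type*} [NormedAddCommGroup H] [InnerProductSpace ℂ H] [CompleteSpace H]

/-- the functional calculus part of the modular data -/
structure FC (R : H →L[ℂ] H) (D : H →L[ℝ] H) (Ψ : (ℝ →ᵇ ℂ) →⋆ₐ[ℂ] (H →L[ℂ] H)) : Prop where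
  psi_FR : Ψ FR = R
  psi_comm : ∀ X : H →L[ℂ] H, X * R = R * X → ∀ G, X * Ψ G = Ψ G * X
  psi_D : ∀ G G' : ℝ →ᵇ ℂ, (∀ ρ, G' ρ = (starRingEnd ℂ) (G (-ρ))) →
    ∀ v : H, D (Ψ G v) = Ψ G' (D v)
  psi_cont : ∀ (G : ℕ → (ℝ →ᵇ ℂ)) (G₀ : ℝ →ᵇ ℂ) (C : ℝ), (∀ n, ‖G n‖ ≤ C) →
    (∀ L : ℝ, TendstoUniformlyOn (fun n ρ => G n ρ) (fun ρ => G₀ ρ) atTop (Set.Icc (-L) L)) →
    ∀ v : H, Tendsto (fun n => Ψ (G n) v) atTop (𝓝 (Ψ G₀ v))

theorem exists_FC {A : VonNeumannAlgebra H} {ξ : H} {R : H →L[ℂ] H} {D : H →L[ℝ] H}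
    (h : TTData A ξ R D) : ∃ Ψ : (ℝ →ᵇ ℂ) →⋆ₐ[ℂ] (H →L[ℂ] H), FC R D Ψ := by
  obtain ⟨Ψ, h1, h2, h3, h4⟩ := exists_fc R h.R_star h.R_nonneg h.R_le h.R_inj h.R_inj'
  exact ⟨Ψ, h1, h2, h3 D h.D_conj h.D_R, h4⟩

@[simp] lemma FR_apply (ρ : ℝ) : FR ρ = ((2 / (1 + Real.exp ρ) : ℝ) : ℂ) := rfl

@[simp] lemma expB_apply (t ρ : ℝ) : expB t ρ = Complex.exp ((t * ρ : ℝ) * Complex.I) := rfl

/-- composition with `ρ ↦ -ρ` -/
noncomputable def refl : (ℝ →ᵇ ℂ) →⋆ₐ[ℂ] (ℝ →ᵇ ℂ) where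
  toFun G := G.compContinuous ⟨fun ρ => -ρ, continuous_neg⟩
  map_one' := by ext; simp
  map_mul' _ _ := by ext; simp
  map_zero' := by ext; simp
  map_add' _ _ := by ext; simp
  commutes' _ := by ext; simp
  map_star' _ := by ext; simp

@[simp] lemma refl_apply (G : ℝ →ᵇ ℂ) (ρ : ℝ) : refl G ρ = G (-ρ) := rfl

lemma refl_norm (G : ℝ →ᵇ ℂ) : ‖refl G‖ ≤ ‖G‖ := by
  rw [BoundedContinuousFunction.norm_le (norm_nonneg _)]
  intro ρ
  exact G.norm_coe_le_norm _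

lemma refl_FR : refl FR = 2 - FR := by
  ext ρ
  have h : (0 : ℝ) < 1 + Real.exp ρ := by positivity
  have h2 : 2 / (1 + Real.exp (-ρ)) = 2 - 2 / (1 + Real.exp ρ) := by
    rw [Real.exp_neg]
    have : (0 : ℝ) < Real.exp ρ := Real.exp_pos ρ
    field_simp
    ring
  have h3 : (2 : ℝ →ᵇ ℂ) ρ = 2 := rfl
  rw [refl_apply, FR_apply, BoundedContinuousFunction.sub_apply, FR_apply, h3, h2]
  push_cast
  ring

/-- the function `1 / cosh (ρ / 2)` -/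
noncomputable def FT : ℝ →ᵇ ℂ :=
  BoundedContinuousFunction.ofNormedAddCommGroup
    (fun ρ : ℝ => (((Real.cosh (ρ / 2))⁻¹ : ℝ) : ℂ))
    (by
      refine Complex.continuous_ofReal.comp (Continuous.inv₀ (by fun_prop) ?_)
      intro ρ
      exact (Real.cosh_pos _).ne') 1 (by
      intro ρ
      rw [Complex.norm_real, Real.norm_of_nonneg (by positivity [Real.cosh_pos (ρ / 2)])]
      exact inv_le_one_of_one_le₀ (Real.one_le_cosh _))

@[simp] lemma FT_apply (ρ : ℝ) : FT ρ = (((Real.cosh (ρ / 2))⁻¹ : ℝ) : ℂ) := rfl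

lemma cosh_half (ρ : ℝ) : Real.cosh (ρ / 2) = (1 + Real.exp ρ) / (2 * Real.exp (ρ / 2)) := by
  rw [Real.cosh_eq, Real.exp_neg]
  have h1 : Real.exp ρ = Real.exp (ρ / 2) * Real.exp (ρ / 2) := by
    rw [← Real.exp_add]; ring_nf
  rw [h1]
  have : (0 : ℝ) < Real.exp (ρ / 2) := Real.exp_pos _
  field_simp
  ring

lemma FT_sq : FT * FT = FR * (2 - FR) := by
  ext ρ
  have h3 : (2 : ℝ →ᵇ ℂ) ρ = 2 := rfl
  rw [BoundedContinuousFunction.mul_apply, BoundedContinuousFunction.mul_apply,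
    BoundedContinuousFunction.sub_apply, FT_apply, FR_apply, h3, cosh_half]
  have h1 : Real.exp ρ = Real.exp (ρ / 2) * Real.exp (ρ / 2) := by
    rw [← Real.exp_add]; ring_nf
  have h2 : (0 : ℝ) < Real.exp (ρ / 2) := Real.exp_pos _
  have h4 : (0 : ℝ) < 1 + Real.exp ρ := by positivity
  have h5 : ((1 + Real.exp ρ) / (2 * Real.exp (ρ / 2)))⁻¹ * ((1 + Real.exp ρ) / (2 * Real.exp (ρ / 2)))⁻¹
      = 2 / (1 + Real.exp ρ) * (2 - 2 / (1 + Real.exp ρ)) := by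
    rw [h1] at h4 ⊢
    field_simp
    ring
  rw [← Complex.ofReal_mul, h5]
  push_cast
  ring

lemma FT_star : star FT = FT := by
  ext ρ
  rw [BoundedContinuousFunction.star_apply, FT_apply]
  exact Complex.conj_ofReal _

section

variable {R : H →L[ℂ] H} {D : H →L[ℝ] H} {Ψ : (ℝ →ᵇ ℂ) →⋆ₐ[ℂ] (H →L[ℂ] H)}

lemma psi_two (Ψ : (ℝ →ᵇ ℂ) →⋆ₐ[ℂ] (H →L[ℂ] H)) : Ψ 2 = (2 : ℂ) • (1 : H →L[ℂ] H) := by
  have h : (2 : ℝ →ᵇ ℂ) = (2 : ℂ) • (1 : ℝ →ᵇ ℂ) := by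
    rw [two_smul, one_add_one_eq_two]
  rw [h, map_smul, map_one]

lemma FC.psi_refl_FR (h : FC R D Ψ) : Ψ (refl FR) = (2 : ℂ) • (1 : H →L[ℂ] H) - R := by
  rw [refl_FR, map_sub, h.psi_FR, psi_two]

lemma FC.symm (h : FC R D Ψ) : FC ((2 : ℂ) • (1 : H →L[ℂ] H) - R) D (Ψ.comp refl) where
  psi_FR := h.psi_refl_FR
  psi_comm := by
    intro X hX G
    refine h.psi_comm X ?_ (refl G)
    have h1 : X * ((2 : ℂ) • (1 : H →L[ℂ] H)) = ((2 : ℂ) • (1 : H →L[ℂ] H)) * X := by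
      rw [mul_smul_comm, smul_mul_assoc, mul_one, one_mul]
    rw [mul_sub, sub_mul, h1] at hX
    exact sub_right_injective hX
  psi_D := by
    intro G G' hG v
    refine h.psi_D (refl G) (refl G') ?_ v
    intro ρ
    rw [refl_apply, refl_apply, hG]
  psi_cont := by
    intro G G₀ C hC hG v
    refine h.psi_cont (fun n => refl (G n)) (refl G₀) C (fun n => (refl_norm _).trans (hC n)) ?_ v
    intro L
    have h1 := hG L
    rw [Metric.tendstoUniformlyOn_iff] at h1 ⊢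
    intro ε hε
    filter_upwards [h1 ε hε] with n hn ρ hρ
    refine hn (-ρ) ?_
    rw [Set.mem_Icc] at hρ ⊢
    constructor <;> linarith [hρ.1, hρ.2]

end

end Pool.Agent.Helper43.TTF
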