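import Pool.Agent.Helper43.TTF.A

/-!
# The functional calculus on the cyclic vector
-/

open scoped InnerProductSpace Topology BoundedContinuousFunction
open ContinuousLinearMap Filter MeasureTheory

namespace Pool.Agent.Helper43.TTF

open Pool.Agent.Helper23

variable {H : Type*} [NormedAddCommGroup H] [InnerProductSpace ℂ H] [CompleteSpace H]

/-- `f = FR - 1`, real version -/
noncomputable def fr (ρ : ℝ) : ℝ := 2 / (1 + Real.exp ρ) - 1

lemma fr_cont : Continuous fr := by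
  unfold fr
  refine Continuous.sub (Continuous.div (by fun_prop) (by fun_prop) ?_) continuous_const
  intro ρ
  positivity

lemma fr_anti {a b : ℝ} (h : a ≤ b) : fr b ≤ fr a := by
  unfold fr
  have h1 : Real.exp a ≤ Real.exp b := Real.exp_le_exp.2 h
  have h2 : 2 / (1 + Real.exp b) ≤ 2 / (1 + Real.exp a) := by
    apply div_le_div_of_nonneg_left (by norm_num) (by positivity)
    linarith
  linarith

lemma fr_neg (a : ℝ) : fr (-a) = - fr a := by
  unfold fr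
  rw [Real.exp_neg]
  have : (0 : ℝ) < Real.exp a := Real.exp_pos a
  field_simp
  ring

lemma fr_pos_lt {a : ℝ} (h : 0 < a) : fr a < 0 := by
  unfold fr
  have h1 : 1 < Real.exp a := by rw [← Real.exp_zero]; exact Real.exp_lt_exp.2 h
  rw [sub_neg, div_lt_one (by positivity)]
  linarith

lemma fr_sq_ge {δ ρ : ℝ} (hδ : 0 < δ) (h : δ ≤ |ρ|) : fr δ ^ 2 ≤ fr ρ ^ 2 := by
  have h1 := fr_pos_lt hδ
  rcases le_abs.1 h with h2 | h2
  · have h3 := fr_anti h2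
    nlinarith
  · have h3 := fr_anti h2
    rw [fr_neg] at h3
    nlinarith

lemma fr_abs_le (ρ : ℝ) : |fr ρ| ≤ 1 := by
  unfold fr
  have h0 : (0 : ℝ) < Real.exp ρ := Real.exp_pos ρ
  have h1 : 0 < 2 / (1 + Real.exp ρ) := by positivity
  have h2 : 2 / (1 + Real.exp ρ) ≤ 2 := by
    rw [div_le_iff₀ (by positivity)]; nlinarith
  rw [abs_le]
  constructor <;> linarith

lemma one_bcf (ρ : ℝ) : (1 : ℝ →ᵇ ℂ) ρ = 1 := rfl

lemma fr_coe (ρ : ℝ) : ((FR - 1 : ℝ →ᵇ ℂ)) ρ = (fr ρ : ℂ) := by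
  rw [BoundedContinuousFunction.sub_apply, FR_apply, one_bcf]
  unfold fr
  push_cast
  ring

/-- regularised inverse of `fr` -/
noncomputable def hB (n : ℕ) : ℝ →ᵇ ℂ :=
  BoundedContinuousFunction.ofNormedAddCommGroup
    (fun ρ : ℝ => ((fr ρ / (fr ρ ^ 2 + 1 / ((n : ℝ) + 1)) : ℝ) : ℂ))
    (by
      refine Complex.continuous_ofReal.comp (Continuous.div fr_cont
        ((fr_cont.pow 2).add continuous_const) ?_)
      intro ρ
      positivity) ((n : ℝ) + 1) (by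
      intro ρ
      rw [Complex.norm_real, Real.norm_eq_abs, abs_div,
        abs_of_pos (a := fr ρ ^ 2 + 1 / ((n : ℝ) + 1)) (by positivity), div_le_iff₀ (by positivity)]
      have h1 := fr_abs_le ρ
      have h2 : (0 : ℝ) < (n : ℝ) + 1 := by positivity
      have h3 : ((n : ℝ) + 1) * (fr ρ ^ 2 + 1 / ((n : ℝ) + 1)) = ((n : ℝ) + 1) * fr ρ ^ 2 + 1 := by
        field_simp
      rw [h3]
      have := sq_nonneg (fr ρ)
      nlinarith)

lemma hB_apply (n : ℕ) (ρ : ℝ) :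
    hB n ρ = ((fr ρ / (fr ρ ^ 2 + 1 / ((n : ℝ) + 1)) : ℝ) : ℂ) := rfl

lemma hB_mul (n : ℕ) (ρ : ℝ) : (hB n * (FR - 1) : ℝ →ᵇ ℂ) ρ =
    ((fr ρ ^ 2 / (fr ρ ^ 2 + 1 / ((n : ℝ) + 1)) : ℝ) : ℂ) := by
  rw [BoundedContinuousFunction.mul_apply, fr_coe, hB_apply, ← Complex.ofReal_mul]
  congr 1
  ring

lemma tendsto_hB (G : ℝ →ᵇ ℂ) (hG : G 0 = 0) (L : ℝ) :
    TendstoUniformlyOn (fun n ρ => (G * (hB n * (FR - 1)) : ℝ →ᵇ ℂ) ρ) (fun ρ => G ρ) atTop
      (Set.Icc (-L) L) := by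
  rw [Metric.tendstoUniformlyOn_iff]
  intro ε hε
  -- near 0
  have hc : Tendsto G (𝓝 0) (𝓝 (G 0)) := G.continuous.continuousAt
  rw [hG, Metric.tendsto_nhds_nhds] at hc
  obtain ⟨δ, hδ, hδ'⟩ := hc ε hε
  have hd : 0 < fr δ ^ 2 := by
    have := fr_pos_lt hδ
    nlinarith
  obtain ⟨m, hm⟩ := exists_nat_gt (‖G‖ / (ε * fr δ ^ 2))
  filter_upwards [eventually_ge_atTop m] with n hn ρ _
  rw [BoundedContinuousFunction.mul_apply, hB_mul, dist_eq_norm]
  set q : ℝ := fr ρ ^ 2 + 1 / ((n : ℝ) + 1) with hq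
  have hqpos : 0 < q := by positivity
  have h1 : G ρ - G ρ * ((fr ρ ^ 2 / q : ℝ) : ℂ) =
      G ρ * (((1 / ((n : ℝ) + 1)) / q : ℝ) : ℂ) := by
    have h2 : ((1 / ((n : ℝ) + 1)) / q : ℝ) = 1 - fr ρ ^ 2 / q := by
      rw [eq_sub_iff_add_eq, ← add_div, div_eq_one_iff_eq hqpos.ne', hq]
      ring
    rw [h2]
    push_cast
    ring
  rw [h1, norm_mul, Complex.norm_real, Real.norm_of_nonneg (by positivity)]
  have hle : (1 / ((n : ℝ) + 1)) / q ≤ 1 := by
    rw [div_le_one hqpos, hq]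
    have := sq_nonneg (fr ρ)
    linarith
  by_cases hρ : |ρ| < δ
  · have h3 := hδ' (x := ρ) (by rw [dist_zero_right]; exact hρ)
    rw [dist_zero_right] at h3
    calc ‖G ρ‖ * ((1 / ((n : ℝ) + 1)) / q) ≤ ‖G ρ‖ * 1 := by gcongr
      _ < ε := by rw [mul_one]; exact h3
  · push Not at hρ
    have h4 := fr_sq_ge hδ hρ
    have h5 : ‖G ρ‖ ≤ ‖G‖ := G.norm_coe_le_norm ρ
    have h6 : (1 / ((n : ℝ) + 1)) / q ≤ (1 / ((n : ℝ) + 1)) / fr δ ^ 2 := by
      apply div_le_div_of_nonneg_left (by positivity) hd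
      rw [hq]
      have : 0 < 1 / ((n : ℝ) + 1) := by positivity
      linarith
    have h7 : ‖G‖ / (ε * fr δ ^ 2) < (n : ℝ) + 1 := by
      have : (m : ℝ) ≤ n := by exact_mod_cast hn
      linarith
    rw [div_lt_iff₀ (by positivity)] at h7
    calc ‖G ρ‖ * ((1 / ((n : ℝ) + 1)) / q) ≤ ‖G‖ * ((1 / ((n : ℝ) + 1)) / fr δ ^ 2) := by gcongr
      _ = ‖G‖ / (((n : ℝ) + 1) * fr δ ^ 2) := by field_simp
      _ < ε := by
        rw [div_lt_iff₀ (by positivity)]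
        linarith

variable {R : H →L[ℂ] H} {D : H →L[ℝ] H} {Ψ : (ℝ →ᵇ ℂ) →⋆ₐ[ℂ] (H →L[ℂ] H)}

lemma FC.psi_xi (h : FC R D Ψ) {ξ : H} (hξ : R ξ = ξ) (G : ℝ →ᵇ ℂ) : Ψ G ξ = G 0 • ξ := by
  set G' : ℝ →ᵇ ℂ := G - (G 0) • 1 with hG'
  have h0 : G' 0 = 0 := by
    rw [hG', BoundedContinuousFunction.sub_apply, BoundedContinuousFunction.smul_apply,
      one_bcf, smul_eq_mul, mul_one, sub_self]
  have h1 := h.psi_cont (fun n => G' * (hB n * (FR - 1))) G' ‖G'‖ ?_ (tendsto_hB G' h0) ξ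
  · have h2 : ∀ n, Ψ (G' * (hB n * (FR - 1))) ξ = 0 := by
      intro n
      have h3 : Ψ (FR - 1) ξ = 0 := by
        rw [map_sub, map_one, h.psi_FR, sub_apply, one_apply_eq_self, hξ, sub_self]
      rw [map_mul, map_mul, mul_apply_eq_comp, mul_apply_eq_comp, h3, map_zero, map_zero]
    simp only [h2] at h1
    have h3 := tendsto_nhds_unique h1 tendsto_const_nhds
    rw [hG', map_sub, map_smul, map_one, sub_apply, smul_apply, one_apply_eq_self] at h3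
    exact sub_eq_zero.1 h3
  · intro n
    rw [BoundedContinuousFunction.norm_le (norm_nonneg _)]
    intro ρ
    rw [BoundedContinuousFunction.mul_apply, hB_mul, norm_mul, Complex.norm_real,
      Real.norm_of_nonneg (by positivity)]
    have hle : fr ρ ^ 2 / (fr ρ ^ 2 + 1 / ((n : ℝ) + 1)) ≤ 1 := by
      rw [div_le_one (by positivity)]
      have : 0 < 1 / ((n : ℝ) + 1) := by positivity
      linarith
    calc ‖G' ρ‖ * (fr ρ ^ 2 / (fr ρ ^ 2 + 1 / ((n : ℝ) + 1))) ≤ ‖G'‖ * 1 := by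
          gcongr
          exact G'.norm_coe_le_norm ρ
      _ = ‖G'‖ := mul_one _

end Pool.Agent.Helper43.TTF
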