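import Pool.Agent.Helper43.TTF.B

/-!
# The modular conjugation
-/

open scoped InnerProductSpace Topology BoundedContinuousFunction
open ContinuousLinearMap Filter MeasureTheory

namespace Pool.Agent.Helper43.TTF

open Pool.Agent.Helper23

variable {H : Type*} [NormedAddCommGroup H] [InnerProductSpace ℂ H] [CompleteSpace H]

/-- properties of the modular conjugation `J` -/
structure JD (D : H →L[ℝ] H) (Ψ : (ℝ →ᵇ ℂ) →⋆ₐ[ℂ] (H →L[ℂ] H)) (J : H →L[ℝ] H) : Prop where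
  J_T : ∀ v, J (Ψ FT v) = D v
  T_J : ∀ v, Ψ FT (J v) = D v
  J_J : ∀ v, J (J v) = v
  J_conj : ∀ (c : ℂ) (v : H), J (c • v) = (starRingEnd ℂ) c • J v
  J_norm : ∀ v, ‖J v‖ = ‖v‖

variable {A : VonNeumannAlgebra H} {ξ : H}
variable {R : H →L[ℂ] H} {D : H →L[ℝ] H} {Ψ : (ℝ →ᵇ ℂ) →⋆ₐ[ℂ] (H →L[ℂ] H)}

lemma psi_star (Ψ : (ℝ →ᵇ ℂ) →⋆ₐ[ℂ] (H →L[ℂ] H)) (G : ℝ →ᵇ ℂ) (v w : H) :
    ⟪Ψ G v, w⟫_ℂ = ⟪v, Ψ (star G) w⟫_ℂ := by
  rw [map_star, inner_star_right]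

lemma psi_mul_apply (Ψ : (ℝ →ᵇ ℂ) →⋆ₐ[ℂ] (H →L[ℂ] H)) (F G : ℝ →ᵇ ℂ) (v : H) :
    Ψ (F * G) v = Ψ F (Ψ G v) := by
  rw [map_mul, mul_apply_eq_comp]

lemma psi_comm_apply (Ψ : (ℝ →ᵇ ℂ) →⋆ₐ[ℂ] (H →L[ℂ] H)) (F G : ℝ →ᵇ ℂ) (v : H) :
    Ψ F (Ψ G v) = Ψ G (Ψ F v) := by
  rw [← psi_mul_apply, mul_comm, psi_mul_apply]

lemma T_symm (v w : H) : ⟪Ψ FT v, w⟫_ℂ = ⟪v, Ψ FT w⟫_ℂ := by
  rw [psi_star, FT_star]

lemma FC.T_sq (h : FC R D Ψ) (v : H) : Ψ FT (Ψ FT v) = R ((2 : ℂ) • v - R v) := by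
  rw [← psi_mul_apply, FT_sq, psi_mul_apply, map_sub, h.psi_FR, psi_two, sub_apply, smul_apply,
    one_apply_eq_self]

lemma FC.T_inj (h : FC R D Ψ) (h' : TTData A ξ R D) (v : H) (hv : Ψ FT v = 0) : v = 0 := by
  have h1 := h.T_sq v
  rw [hv, map_zero] at h1
  have h2 := h'.R_inj _ h1.symm
  exact h'.R_inj' v (sub_eq_zero.1 h2).symm

lemma FC.T_dense (h : FC R D Ψ) (h' : TTData A ξ R D) : DenseRange (Ψ FT) := by
  have h1 : Dense (((Ψ FT : H →L[ℂ] H).range : Submodule ℂ H) : Set H) := by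
    rw [Submodule.dense_iff_topologicalClosure_eq_top,
      Submodule.topologicalClosure_eq_top_iff, Submodule.eq_bot_iff]
    intro v hv
    rw [Submodule.mem_orthogonal] at hv
    apply h.T_inj h'
    rw [← inner_self_eq_zero (𝕜 := ℂ), ← T_symm]
    exact hv _ ⟨Ψ FT v, rfl⟩
  exact h1

lemma FC.D_norm (h : FC R D Ψ) (h' : TTData A ξ R D) (v : H) : ‖D v‖ = ‖Ψ FT v‖ := by
  have h1 : ⟪D v, D v⟫_ℂ = ⟪Ψ FT v, Ψ FT v⟫_ℂ := by
    rw [h'.D_symm, h'.D_sq, ← h.T_sq, T_symm]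
  rw [inner_self_eq_norm_sq_to_K, inner_self_eq_norm_sq_to_K] at h1
  have h2 : ‖D v‖ ^ 2 = ‖Ψ FT v‖ ^ 2 := by
    have h3 : ((‖D v‖ ^ 2 : ℝ) : ℂ) = ((‖Ψ FT v‖ ^ 2 : ℝ) : ℂ) := by
      push_cast
      exact h1
    exact Complex.ofReal_injective h3
  exact (pow_left_inj₀ (norm_nonneg _) (norm_nonneg _) two_ne_zero).1 h2

lemma FC.D_T (h : FC R D Ψ) (v : H) : D (Ψ FT v) = Ψ FT (D v) := by
  apply h.psi_D
  intro ρ
  rw [FT_apply, FT_apply, Complex.conj_ofReal, neg_div, Real.cosh_neg]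

theorem FC.exists_J (h : FC R D Ψ) (h' : TTData A ξ R D) : ∃ J : H →L[ℝ] H, JD D Ψ J := by
  set e : H →ₗ[ℝ] H := ((Ψ FT).restrictScalars ℝ : H →L[ℝ] H).toLinearMap with he
  have hd : DenseRange e := h.T_dense h'
  have hn : ∀ v, ‖(D : H →ₗ[ℝ] H) v‖ ≤ 1 * ‖e v‖ := by
    intro v
    rw [one_mul]
    exact (h.D_norm h' v).le
  set J : H →L[ℝ] H := (D : H →ₗ[ℝ] H).extendOfNorm e with hJ
  have hJT : ∀ v, J (Ψ FT v) = D v := fun v => LinearMap.extendOfNorm_eq hd ⟨1, hn⟩ v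
  have hdense : ∀ (p : H → Prop), IsClosed {v | p v} → (∀ v, p (Ψ FT v)) → ∀ v, p v := by
    intro p hp h1 v
    have hsub : Set.range (Ψ FT) ⊆ {v | p v} := by
      rintro _ ⟨w, rfl⟩
      exact h1 w
    exact closure_minimal hsub hp (h.T_dense h' v)
  refine ⟨J, hJT, ?_, ?_, ?_, ?_⟩
  · refine hdense _ (isClosed_eq (by fun_prop) (by fun_prop)) ?_
    intro v
    rw [hJT, h.D_T]
  · refine hdense _ (isClosed_eq (by fun_prop) (by fun_prop)) ?_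
    refine hdense _ (isClosed_eq (by fun_prop) (by fun_prop)) ?_
    intro v
    rw [hJT, h.D_T, hJT, h'.D_sq, h.T_sq]
  · intro c
    refine hdense _ (isClosed_eq (by fun_prop) (by fun_prop)) ?_
    intro v
    rw [← map_smul, hJT, hJT, h'.D_conj]
  · refine hdense _ (isClosed_eq (by fun_prop) (by fun_prop)) ?_
    intro v
    rw [hJT, h.D_norm h']

lemma JD.symm {J : H →L[ℝ] H} (h : JD D Ψ J) : JD D (Ψ.comp refl) J := by
  have h1 : refl FT = FT := by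
    ext ρ
    rw [refl_apply, FT_apply, FT_apply, neg_div, Real.cosh_neg]
  have h2 : (Ψ.comp refl) FT = Ψ FT := by
    rw [StarAlgHom.comp_apply, h1]
  refine ⟨?_, ?_, h.J_J, h.J_conj, h.J_norm⟩
  · intro v
    rw [h2, h.J_T]
  · intro v
    rw [h2, h.T_J]

lemma JD.J_add_inner {J : H →L[ℝ] H} (h : JD D Ψ J) (v w : H) : ⟪J v, J w⟫_ℂ = ⟪w, v⟫_ℂ := by
  have hre : ∀ a b : H, (⟪J a, J b⟫_ℂ).re = (⟪a, b⟫_ℂ).re := by
    intro a b
    have h1 := h.J_norm (a + b)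
    rw [map_add] at h1
    have h2 := @norm_add_sq ℂ H _ _ _ (J a) (J b)
    have h3 := @norm_add_sq ℂ H _ _ _ a b
    rw [h1, h.J_norm, h.J_norm, h3] at h2
    simp only [RCLike.re_to_complex] at h2
    linarith
  apply Complex.ext
  · rw [hre, ← inner_conj_symm, Complex.conj_re]
  · have h1 := hre (Complex.I • v) w
    rw [h.J_conj, inner_smul_left, inner_smul_left, Complex.conj_I] at h1
    simp only [Complex.conj_I, map_neg, neg_neg, Complex.mul_re, Complex.I_re, Complex.I_im,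
      Complex.neg_re, Complex.neg_im, zero_mul, one_mul, zero_sub, neg_zero, neg_neg] at h1
    have h2 : (⟪w, v⟫_ℂ).im = -(⟪v, w⟫_ℂ).im := by
      rw [← inner_conj_symm, Complex.conj_im]
    rw [h2]
    linarith

/-- the operator `J x J` -/
noncomputable def JD.cj {J : H →L[ℝ] H} (h : JD D Ψ J) (x : H →L[ℂ] H) : H →L[ℂ] H :=
  LinearMap.mkContinuous
    { toFun := fun v => J (x (J v))
      map_add' := by intro v w; simp only [map_add]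
      map_smul' := by
        intro c v
        rw [h.J_conj, map_smul, h.J_conj, Complex.conj_conj, RingHom.id_apply] } ‖x‖
    (by
      intro v
      change ‖J (x (J v))‖ ≤ _
      rw [h.J_norm]
      refine (x.le_opNorm _).trans ?_
      rw [h.J_norm])

lemma JD.cj_apply {J : H →L[ℝ] H} (h : JD D Ψ J) (x : H →L[ℂ] H) (v : H) :
    h.cj x v = J (x (J v)) := rfl

lemma JD.cj_cj {J : H →L[ℝ] H} (h : JD D Ψ J) (x : H →L[ℂ] H) : h.cj (h.cj x) = x := by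
  ext v
  rw [h.cj_apply, h.cj_apply, h.J_J, h.J_J]

lemma JD.T_cj_T {J : H →L[ℝ] H} (h : JD D Ψ J) (x : H →L[ℂ] H) (v : H) :
    Ψ FT (h.cj x (Ψ FT v)) = D (x (D v)) := by
  rw [h.cj_apply, h.T_J, h.J_T]

end Pool.Agent.Helper43.TTF
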