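import Pool.Agent.Helper43.TTF.C

/-!
# Analytic vectors
-/

open scoped InnerProductSpace Topology BoundedContinuousFunction
open ContinuousLinearMap Filter MeasureTheory

namespace Pool.Agent.Helper43.TTF

open Pool.Agent.Helper23

variable {H : Type*} [NormedAddCommGroup H] [InnerProductSpace ℂ H] [CompleteSpace H]

lemma psi_norm (Ψ : (ℝ →ᵇ ℂ) →⋆ₐ[ℂ] (H →L[ℂ] H)) (G : ℝ →ᵇ ℂ) : ‖Ψ G‖ ≤ ‖G‖ :=
  NonUnitalStarAlgHom.norm_apply_le Ψ G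

lemma psi_norm_apply (Ψ : (ℝ →ᵇ ℂ) →⋆ₐ[ℂ] (H →L[ℂ] H)) (G : ℝ →ᵇ ℂ) (v : H) :
    ‖Ψ G v‖ ≤ ‖G‖ * ‖v‖ :=
  ((Ψ G).le_opNorm v).trans (by gcongr; exact psi_norm Ψ G)

/-- the homomorphism as a continuous linear map -/
noncomputable def psiL (Ψ : (ℝ →ᵇ ℂ) →⋆ₐ[ℂ] (H →L[ℂ] H)) : (ℝ →ᵇ ℂ) →L[ℂ] (H →L[ℂ] H) :=
  LinearMap.mkContinuous
    { toFun := fun G => Ψ G
      map_add' := fun _ _ => map_add Ψ _ _
      map_smul' := fun c G => map_smul Ψ c G } 1 (by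
      intro G
      rw [one_mul]
      exact psi_norm Ψ G)

lemma psiL_apply (Ψ : (ℝ →ᵇ ℂ) →⋆ₐ[ℂ] (H →L[ℂ] H)) (G : ℝ →ᵇ ℂ) : psiL Ψ G = Ψ G := rfl

/-- truncation of the identity function -/
noncomputable def gt (L : ℝ) (ρ : ℝ) : ℝ := max (-|L|) (min |L| ρ)

lemma gt_abs (L ρ : ℝ) : |gt L ρ| ≤ |L| := by
  unfold gt
  rw [abs_le]
  constructor
  · exact le_max_left _ _
  · refine max_le ?_ (min_le_left _ _)
    have := abs_nonneg L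
    linarith

lemma gt_eq {L ρ : ℝ} (h : |ρ| ≤ L) : gt L ρ = ρ := by
  have hL : 0 ≤ L := (abs_nonneg ρ).trans h
  rw [abs_le] at h
  unfold gt
  rw [abs_of_nonneg hL, min_eq_right h.2, max_eq_right h.1]

noncomputable def gB (L : ℝ) : ℝ →ᵇ ℂ :=
  BoundedContinuousFunction.ofNormedAddCommGroup (fun ρ : ℝ => ((gt L ρ : ℝ) : ℂ))
    (by unfold gt; fun_prop) |L| (by
      intro ρ
      rw [Complex.norm_real, Real.norm_eq_abs]
      exact gt_abs L ρ)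

lemma gB_apply (L ρ : ℝ) : gB L ρ = ((gt L ρ : ℝ) : ℂ) := rfl

/-- evaluation at a point as a ring homomorphism -/
noncomputable def evR (ρ : ℝ) : (ℝ →ᵇ ℂ) →+* ℂ where
  toFun G := G ρ
  map_one' := rfl
  map_mul' _ _ := rfl
  map_zero' := rfl
  map_add' _ _ := rfl

/-- `ρ ↦ exp (i z g(ρ))` -/
noncomputable def ez (L : ℝ) (z : ℂ) : ℝ →ᵇ ℂ := NormedSpace.exp (z • (Complex.I • gB L))

lemma ez_apply (L : ℝ) (z : ℂ) (ρ : ℝ) : ez L z ρ = Complex.exp (Complex.I * z * (gt L ρ : ℝ)) := by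
  have hc : Continuous (evR ρ) := (BoundedContinuousFunction.evalCLM ℂ ρ).continuous
  have h := NormedSpace.map_exp (evR ρ) hc (z • (Complex.I • gB L))
  have h2 : (evR ρ) (z • (Complex.I • gB L)) = Complex.I * z * (gt L ρ : ℝ) := by
    change z * (Complex.I * ((gt L ρ : ℝ) : ℂ)) = _
    ring
  rw [h2] at h
  rw [Complex.exp_eq_exp_ℂ]
  exact h

lemma ez_diff (L : ℝ) : Differentiable ℂ (ez L) := fun z =>
  (hasDerivAt_exp_smul_const (𝕂 := ℂ) (Complex.I • gB L) z).differentiableAt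

lemma ez_norm (L : ℝ) (z : ℂ) : ‖ez L z‖ ≤ Real.exp (|z.im| * |L|) := by
  rw [BoundedContinuousFunction.norm_le (Real.exp_pos _).le]
  intro ρ
  rw [ez_apply, Complex.norm_exp]
  apply Real.exp_le_exp.2
  have h1 : (Complex.I * z * ((gt L ρ : ℝ) : ℂ)).re = - (z.im * gt L ρ) := by
    simp [Complex.mul_re]
  rw [h1]
  have h2 := gt_abs L ρ
  calc -(z.im * gt L ρ) ≤ |z.im * gt L ρ| := neg_le_abs _
    _ = |z.im| * |gt L ρ| := abs_mul _ _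
    _ ≤ |z.im| * |L| := by gcongr

lemma ez_zero (L : ℝ) : ez L 0 = 1 := by
  unfold ez
  rw [zero_smul, NormedSpace.exp_zero]

lemma ez_star (L : ℝ) (z : ℂ) : star (ez L z) = ez L (-(starRingEnd ℂ) z) := by
  ext ρ
  rw [BoundedContinuousFunction.star_apply, ez_apply, ez_apply, RCLike.star_def, ← Complex.exp_conj,
    map_mul, map_mul, Complex.conj_ofReal, Complex.conj_I]
  congr 1
  ring

/-- the analytic function of the proof -/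
noncomputable def cz (Ψ : (ℝ →ᵇ ℂ) →⋆ₐ[ℂ] (H →L[ℂ] H)) (L : ℝ) (x : H →L[ℂ] H) (v w : H) (z : ℂ) :
    ℂ := ⟪v, Ψ (ez L z) (x (Ψ (ez L (-z)) w))⟫_ℂ

lemma cz_zero (Ψ : (ℝ →ᵇ ℂ) →⋆ₐ[ℂ] (H →L[ℂ] H)) (L : ℝ) (x : H →L[ℂ] H) (v w : H) :
    cz Ψ L x v w 0 = ⟪v, x w⟫_ℂ := by
  unfold cz
  rw [neg_zero, ez_zero, map_one, one_apply_eq_self, one_apply_eq_self]

lemma cz_diff (Ψ : (ℝ →ᵇ ℂ) →⋆ₐ[ℂ] (H →L[ℂ] H)) (L : ℝ) (x : H →L[ℂ] H) (v w : H) :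
    Differentiable ℂ (cz Ψ L x v w) := by
  have h1 : Differentiable ℂ (fun z => psiL Ψ (ez L z)) :=
    (psiL Ψ).differentiable.comp (ez_diff L)
  have h2 : Differentiable ℂ (fun z => psiL Ψ (ez L (-z)) w) :=
    (h1.comp differentiable_neg).clm_apply (differentiable_const w)
  have h3 : Differentiable ℂ (fun z => psiL Ψ (ez L z) (x (psiL Ψ (ez L (-z)) w))) :=
    h1.clm_apply (x.differentiable.comp h2)
  exact (innerSL ℂ v).differentiable.comp h3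

lemma cz_bound (Ψ : (ℝ →ᵇ ℂ) →⋆ₐ[ℂ] (H →L[ℂ] H)) (L : ℝ) (x : H →L[ℂ] H) (v w : H) (z : ℂ)
    (hz : |z.im| ≤ 1 / 2) : ‖cz Ψ L x v w z‖ ≤
      ‖v‖ * (Real.exp (1 / 2 * |L|) * (‖x‖ * (Real.exp (1 / 2 * |L|) * ‖w‖))) := by
  have he : ∀ z : ℂ, |z.im| ≤ 1 / 2 → ‖ez L z‖ ≤ Real.exp (1 / 2 * |L|) := by
    intro z hz
    refine (ez_norm L z).trans (Real.exp_le_exp.2 ?_)
    gcongr
  unfold cz
  refine (norm_inner_le_norm _ _).trans ?_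
  gcongr
  refine (psi_norm_apply _ _ _).trans ?_
  gcongr
  · exact he z hz
  refine (x.le_opNorm _).trans ?_
  gcongr
  refine (psi_norm_apply _ _ _).trans ?_
  gcongr
  refine he _ ?_
  rw [Complex.neg_im, abs_neg]
  exact hz

end Pool.Agent.Helper43.TTF
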