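import Pool.Agent.Helper43.TTF.D
import Pool.Agent.Helper5.TTD

/-!
# The integral formula
-/

open scoped InnerProductSpace Topology BoundedContinuousFunction
open ContinuousLinearMap Filter MeasureTheory

namespace Pool.Agent.Helper43.TTF

open Pool.Agent.Helper23

variable {H : Type*} [NormedAddCommGroup H] [InnerProductSpace ℂ H] [CompleteSpace H]

/-- cut-off function -/
noncomputable def ct (n : ℕ) (ρ : ℝ) : ℝ := max 0 (min 1 ((n : ℝ) + 1 - |ρ|))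

lemma ct_nonneg (n : ℕ) (ρ : ℝ) : 0 ≤ ct n ρ := le_max_left _ _

lemma ct_le (n : ℕ) (ρ : ℝ) : ct n ρ ≤ 1 := max_le zero_le_one (min_le_left _ _)

lemma ct_zero {n : ℕ} {ρ : ℝ} (h : (n : ℝ) + 1 ≤ |ρ|) : ct n ρ = 0 := by
  unfold ct
  apply max_eq_left
  refine (min_le_right _ _).trans ?_
  linarith

lemma ct_one {n : ℕ} {ρ : ℝ} (h : |ρ| ≤ n) : ct n ρ = 1 := by
  unfold ct
  rw [min_eq_left (by linarith), max_eq_right zero_le_one]

lemma ct_cont (n : ℕ) : Continuous (ct n) := by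
  unfold ct; fun_prop

noncomputable def ctB (n : ℕ) : ℝ →ᵇ ℂ :=
  BoundedContinuousFunction.ofNormedAddCommGroup (fun ρ : ℝ => ((ct n ρ : ℝ) : ℂ))
    (Complex.continuous_ofReal.comp (ct_cont n)) 1 (by
      intro ρ
      rw [Complex.norm_real, Real.norm_of_nonneg (ct_nonneg n ρ)]
      exact ct_le n ρ)

lemma ctB_apply (n : ℕ) (ρ : ℝ) : ctB n ρ = ((ct n ρ : ℝ) : ℂ) := rfl

lemma ctB_norm (n : ℕ) : ‖ctB n‖ ≤ 1 :=
  BoundedContinuousFunction.norm_ofNormedAddCommGroup_le _ zero_le_one _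

noncomputable def kB (n : ℕ) (t : ℝ) : ℝ →ᵇ ℂ :=
  BoundedContinuousFunction.ofNormedAddCommGroup
    (fun ρ : ℝ => ((ct n ρ * Real.cosh (ρ / 2) : ℝ) : ℂ) * Complex.exp ((t * ρ : ℝ) * Complex.I))
    (by
      have := ct_cont n
      fun_prop) (Real.cosh (((n : ℝ) + 1) / 2)) (by
      intro ρ
      rw [norm_mul, Complex.norm_exp_ofReal_mul_I, mul_one, Complex.norm_real, Real.norm_of_nonneg
        (mul_nonneg (ct_nonneg n ρ) (Real.cosh_pos _).le)]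
      rcases le_total ((n : ℝ) + 1) |ρ| with h | h
      · rw [ct_zero h, zero_mul]
        exact (Real.cosh_pos _).le
      · calc ct n ρ * Real.cosh (ρ / 2) ≤ 1 * Real.cosh (ρ / 2) := by
              gcongr
              exact ct_le n ρ
          _ ≤ Real.cosh (((n : ℝ) + 1) / 2) := by
              rw [one_mul, Real.cosh_le_cosh, abs_div, abs_div,
                abs_of_nonneg (a := (n : ℝ) + 1) (by positivity)]
              gcongr)

lemma kB_apply (n : ℕ) (t : ℝ) (ρ : ℝ) : kB n t ρ =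
    ((ct n ρ * Real.cosh (ρ / 2) : ℝ) : ℂ) * Complex.exp ((t * ρ : ℝ) * Complex.I) := rfl

lemma kB_a (n : ℕ) (t : ℝ) : expB t * ctB n = FT * kB n t := by
  ext ρ
  rw [BoundedContinuousFunction.mul_apply, BoundedContinuousFunction.mul_apply, expB_apply,
    ctB_apply, FT_apply, kB_apply]
  have h : ((Real.cosh (ρ / 2) : ℝ) : ℂ) ≠ 0 := by
    exact_mod_cast (Real.cosh_pos _).ne'
  push_cast at h ⊢
  field_simp

lemma two_bcf (ρ : ℝ) : (2 : ℝ →ᵇ ℂ) ρ = 2 := rfl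

lemma kB_b (n : ℕ) (t : ℝ) :
    (2 - FR) * kB n t = ez ((n : ℝ) + 1) (t - Complex.I / 2) * ctB n := by
  ext ρ
  rw [BoundedContinuousFunction.mul_apply, BoundedContinuousFunction.mul_apply,
    BoundedContinuousFunction.sub_apply, FR_apply, ctB_apply, ez_apply, kB_apply, two_bcf]
  rcases le_total ((n : ℝ) + 1) |ρ| with h | h
  · rw [ct_zero h]
    simp
  · rw [gt_eq h]
    have h1 : Complex.exp (Complex.I * (t - Complex.I / 2) * (ρ : ℝ)) =
        Complex.exp ((t * ρ : ℝ) * Complex.I) * ((Real.exp (ρ / 2) : ℝ) : ℂ) := by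
      rw [Complex.ofReal_exp, ← Complex.exp_add]
      congr 1
      push_cast
      ring_nf
      rw [Complex.I_sq]
      ring
    have h2 : (2 - 2 / (1 + Real.exp ρ)) * Real.cosh (ρ / 2) = Real.exp (ρ / 2) := by
      rw [cosh_half]
      have h1 : Real.exp ρ = Real.exp (ρ / 2) * Real.exp (ρ / 2) := by
        rw [← Real.exp_add]; ring_nf
      have h2 : (0 : ℝ) < Real.exp (ρ / 2) := Real.exp_pos _
      have h4 : (0 : ℝ) < 1 + Real.exp ρ := by positivity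
      rw [h1] at h4 ⊢
      field_simp
      ring
    rw [h1, ← h2]
    push_cast
    ring

lemma kB_c (n : ℕ) (t : ℝ) :
    FR * kB n t = ez ((n : ℝ) + 1) (t + Complex.I / 2) * ctB n := by
  ext ρ
  rw [BoundedContinuousFunction.mul_apply, BoundedContinuousFunction.mul_apply,
    FR_apply, ctB_apply, ez_apply, kB_apply]
  rcases le_total ((n : ℝ) + 1) |ρ| with h | h
  · rw [ct_zero h]
    simp
  · rw [gt_eq h]
    have h1 : Complex.exp (Complex.I * (t + Complex.I / 2) * (ρ : ℝ)) =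
        Complex.exp ((t * ρ : ℝ) * Complex.I) * ((Real.exp (-(ρ / 2)) : ℝ) : ℂ) := by
      rw [Complex.ofReal_exp, ← Complex.exp_add]
      congr 1
      push_cast
      ring_nf
      rw [Complex.I_sq]
      ring
    have h2 : (2 / (1 + Real.exp ρ)) * Real.cosh (ρ / 2) = Real.exp (-(ρ / 2)) := by
      rw [cosh_half, Real.exp_neg]
      have h2 : (0 : ℝ) < Real.exp (ρ / 2) := Real.exp_pos _
      have h4 : (0 : ℝ) < 1 + Real.exp ρ := by positivity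
      field_simp
    rw [h1, ← h2]
    push_cast
    ring

lemma expB_star (t : ℝ) : star (expB t) = expB (-t) := by
  ext ρ
  rw [BoundedContinuousFunction.star_apply, expB_apply, expB_apply, RCLike.star_def,
    ← Complex.exp_conj, map_mul, Complex.conj_ofReal, Complex.conj_I]
  congr 1
  push_cast
  ring

variable {R : H →L[ℂ] H} {D : H →L[ℝ] H} {Ψ : (ℝ →ᵇ ℂ) →⋆ₐ[ℂ] (H →L[ℂ] H)} {J : H →L[ℝ] H}

lemma psi_b (h : FC R D Ψ) (n : ℕ) (t : ℝ) (v : H) :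
    (2 : ℂ) • Ψ (kB n t) v - R (Ψ (kB n t) v) =
      Ψ (ez ((n : ℝ) + 1) (t - Complex.I / 2)) (Ψ (ctB n) v) := by
  rw [← psi_mul_apply, ← kB_b, psi_mul_apply, map_sub, h.psi_FR, psi_two, sub_apply, smul_apply,
    one_apply_eq_self]

lemma psi_c (h : FC R D Ψ) (n : ℕ) (t : ℝ) (v : H) :
    R (Ψ (kB n t) v) = Ψ (ez ((n : ℝ) + 1) (t + Complex.I / 2)) (Ψ (ctB n) v) := by
  rw [← psi_mul_apply, ← kB_c, psi_mul_apply, h.psi_FR]

lemma R_symm (h : FC R D Ψ) (v w : H) : ⟪v, R w⟫_ℂ = ⟪R v, w⟫_ℂ := by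
  have hs : star FR = FR := by
    ext ρ
    rw [BoundedContinuousFunction.star_apply, FR_apply]
    exact Complex.conj_ofReal _
  rw [← h.psi_FR, psi_star, hs]

lemma R_symm' (h : FC R D Ψ) (v w : H) : ⟪v, (2 : ℂ) • w - R w⟫_ℂ = ⟪(2 : ℂ) • v - R v, w⟫_ℂ := by
  rw [inner_sub_right, inner_sub_left, R_symm h, inner_smul_left, inner_smul_right,
    Complex.conj_ofNat]

lemma boundary (h : FC R D Ψ) (hJ : JD D Ψ J) {x' x : H →L[ℂ] H} {β : ℝ}
    (hx : ∀ v : H, D (x' (D v)) =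
      ((Real.exp (-β / 2) : ℝ) : ℂ) • ((2 : ℂ) • x (R v) - R (x (R v))) +
      ((Real.exp (β / 2) : ℝ) : ℂ) • R (x ((2 : ℂ) • v - R v))) (n : ℕ) (v1 w1 : H) (t : ℝ) :
    ((Real.exp (-β / 2) : ℝ) : ℂ) *
        cz Ψ ((n : ℝ) + 1) x (Ψ (ctB n) v1) (Ψ (ctB n) w1) (t - Complex.I / 2) +
      ((Real.exp (β / 2) : ℝ) : ℂ) *
        cz Ψ ((n : ℝ) + 1) x (Ψ (ctB n) v1) (Ψ (ctB n) w1) (t + Complex.I / 2) =
      ⟪Ψ (ctB n) v1, Ψ (expB t) (hJ.cj x' (Ψ (expB (-t)) (Ψ (ctB n) w1)))⟫_ℂ := by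
  have hv : Ψ (expB (-t)) (Ψ (ctB n) v1) = Ψ FT (Ψ (kB n (-t)) v1) := by
    rw [← psi_mul_apply, kB_a, psi_mul_apply]
  have hw : Ψ (expB (-t)) (Ψ (ctB n) w1) = Ψ FT (Ψ (kB n (-t)) w1) := by
    rw [← psi_mul_apply, kB_a, psi_mul_apply]
  have h1 : star (expB t) = expB (-t) := expB_star t
  have h2 : ⟪Ψ (ctB n) v1, Ψ (expB t) (hJ.cj x' (Ψ (expB (-t)) (Ψ (ctB n) w1)))⟫_ℂ =
      ⟪Ψ (kB n (-t)) v1, D (x' (D (Ψ (kB n (-t)) w1)))⟫_ℂ := by
    rw [← hJ.T_cj_T, ← T_symm, ← hw, ← hv, psi_star Ψ (expB (-t)), expB_star, neg_neg]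
  rw [h2, hx, inner_add_right, inner_smul_right, inner_smul_right, R_symm' h, R_symm h,
    psi_b h, psi_b h, psi_c h, psi_c h]
  unfold cz
  rw [psi_star Ψ (ez _ _), psi_star Ψ (ez _ _), ez_star, ez_star]
  have e1 : -(starRingEnd ℂ) (((-t : ℝ) : ℂ) - Complex.I / 2) = (t : ℂ) - Complex.I / 2 := by
    rw [map_sub, Complex.conj_ofReal, map_div₀, Complex.conj_I, Complex.conj_ofNat]
    push_cast
    ring
  have e2 : -(starRingEnd ℂ) (((-t : ℝ) : ℂ) + Complex.I / 2) = (t : ℂ) + Complex.I / 2 := by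
    rw [map_add, Complex.conj_ofReal, map_div₀, Complex.conj_I, Complex.conj_ofNat]
    push_cast
    ring
  have e3 : -((t : ℂ) - Complex.I / 2) = ((-t : ℝ) : ℂ) + Complex.I / 2 := by
    push_cast
    ring
  have e4 : -((t : ℂ) + Complex.I / 2) = ((-t : ℝ) : ℂ) - Complex.I / 2 := by
    push_cast
    ring
  rw [e1, e2, e3, e4]

/-- the kernel -/
noncomputable def ker (β t : ℝ) : ℂ :=
  Complex.exp (Complex.I * ((-β : ℝ) : ℂ) * t) / (2 * Real.cosh (Real.pi * t) : ℝ)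

lemma ker_norm (β t : ℝ) : ‖ker β t‖ = (2 * Real.cosh (Real.pi * t))⁻¹ := by
  unfold ker
  rw [norm_div, Complex.norm_real, Real.norm_of_nonneg (by positivity [Real.cosh_pos (Real.pi * t)])]
  have : Complex.I * ((-β : ℝ) : ℂ) * t = ((-β * t : ℝ) : ℂ) * Complex.I := by
    push_cast; ring
  rw [this, Complex.norm_exp_ofReal_mul_I, one_div]

lemma ker_cont (β : ℝ) : Continuous (ker β) := by
  unfold ker
  refine Continuous.div (by fun_prop) (by fun_prop) ?_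
  intro t
  have := Real.cosh_pos (Real.pi * t)
  exact_mod_cast (by positivity : (2 * Real.cosh (Real.pi * t) : ℝ) ≠ 0)

lemma integral_cut (h : FC R D Ψ) (hJ : JD D Ψ J) {x' x : H →L[ℂ] H} {β : ℝ}
    (hx : ∀ v : H, D (x' (D v)) =
      ((Real.exp (-β / 2) : ℝ) : ℂ) • ((2 : ℂ) • x (R v) - R (x (R v))) +
      ((Real.exp (β / 2) : ℝ) : ℂ) • R (x ((2 : ℂ) • v - R v))) (n : ℕ) (v1 w1 : H) :
    ⟪Ψ (ctB n) v1, x (Ψ (ctB n) w1)⟫_ℂ = ∫ t : ℝ, ker β t *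
      ⟪Ψ (ctB n) v1, Ψ (expB t) (hJ.cj x' (Ψ (expB (-t)) (Ψ (ctB n) w1)))⟫_ℂ := by
  rw [← cz_zero Ψ ((n : ℝ) + 1) x (Ψ (ctB n) v1) (Ψ (ctB n) w1)]
  rw [Pool.Agent.Helper5.TTD.strip_formula _ (cz_diff Ψ _ x _ _) _ (cz_bound Ψ _ x _ _) (-β)]
  congr 1
  funext t
  rw [← boundary h hJ hx]
  unfold ker
  rw [neg_neg]

end Pool.Agent.Helper43.TTF
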