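import Pool.Agent.Helper43.TTF.E
import Pool.Agent.Helper72.TTB

/-!
# Tomita's theorem
-/

open scoped InnerProductSpace Topology BoundedContinuousFunction FourierTransform
open ContinuousLinearMap Filter MeasureTheory

namespace Pool.Agent.Helper43.TTF

open Pool.Agent.Helper23

variable {H : Type*} [NormedAddCommGroup H] [InnerProductSpace ℂ H] [CompleteSpace H]
variable {R : H →L[ℂ] H} {D : H →L[ℝ] H} {Ψ : (ℝ →ᵇ ℂ) →⋆ₐ[ℂ] (H →L[ℂ] H)} {J : H →L[ℝ] H}

lemma tendsto_ct (h : FC R D Ψ) (v : H) : Tendsto (fun n => Ψ (ctB n) v) atTop (𝓝 v) := by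
  have h1 := h.psi_cont ctB 1 1 ctB_norm ?_ v
  · rwa [map_one, one_apply_eq_self] at h1
  · intro L
    rw [Metric.tendstoUniformlyOn_iff]
    intro ε hε
    obtain ⟨m, hm⟩ := exists_nat_ge L
    filter_upwards [eventually_ge_atTop m] with n hn ρ hρ
    have h2 : |ρ| ≤ n := by
      have h3 : (m : ℝ) ≤ n := by exact_mod_cast hn
      rw [Set.mem_Icc] at hρ
      rw [abs_le]
      constructor <;> linarith [hρ.1, hρ.2]
    rw [ctB_apply, ct_one h2, one_bcf, Complex.ofReal_one, dist_self]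
    exact hε

lemma expB_norm (t : ℝ) : ‖expB t‖ ≤ 1 :=
  BoundedContinuousFunction.norm_ofNormedAddCommGroup_le _ zero_le_one _

lemma U_norm (Ψ : (ℝ →ᵇ ℂ) →⋆ₐ[ℂ] (H →L[ℂ] H)) (t : ℝ) (v : H) : ‖Ψ (expB t) v‖ ≤ ‖v‖ := by
  refine (psi_norm_apply Ψ _ v).trans ?_
  calc ‖expB t‖ * ‖v‖ ≤ 1 * ‖v‖ := by gcongr; exact expB_norm t
    _ = ‖v‖ := one_mul _

lemma exp_sub (a b : ℝ) : ‖Complex.exp (a * Complex.I) - Complex.exp (b * Complex.I)‖ ≤ |a - b| := by
  have h1 : Complex.exp (a * Complex.I) - Complex.exp (b * Complex.I) =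
      Complex.exp (b * Complex.I) * (Complex.exp (Complex.I * ((a - b : ℝ) : ℂ)) - 1) := by
    rw [mul_sub, ← Complex.exp_add, mul_one]
    congr 2
    push_cast
    ring
  rw [h1, norm_mul, Complex.norm_exp_ofReal_mul_I, one_mul]
  exact Real.norm_exp_I_mul_ofReal_sub_one_le

lemma U_cont (h : FC R D Ψ) (v : H) : Continuous (fun t : ℝ => Ψ (expB t) v) := by
  apply SeqContinuous.continuous
  intro s t hs
  refine h.psi_cont (fun n => expB (s n)) (expB t) 1 (fun n => expB_norm _) ?_ v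
  intro L
  rw [Metric.tendstoUniformlyOn_iff]
  intro ε hε
  have h1 := Metric.tendsto_atTop.1 hs (ε / (|L| + 1)) (by positivity)
  obtain ⟨m, hm⟩ := h1
  filter_upwards [eventually_ge_atTop m] with n hn ρ hρ
  have h2 := hm n hn
  rw [Real.dist_eq] at h2
  rw [dist_eq_norm, expB_apply, expB_apply]
  refine (exp_sub _ _).trans_lt ?_
  rw [← sub_mul, abs_mul, abs_sub_comm]
  have h3 : |ρ| ≤ |L| := by
    rw [Set.mem_Icc] at hρ
    rw [abs_le]
    constructor <;> linarith [hρ.1, hρ.2, le_abs_self L]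
  have h5 : 0 < |L| + 1 := by positivity
  rw [lt_div_iff₀ h5] at h2
  have h4 : 0 ≤ |s n - t| := abs_nonneg _
  nlinarith

/-- the matrix coefficient `⟪v, U_t y U_{-t} w⟫` -/
noncomputable def mc (Ψ : (ℝ →ᵇ ℂ) →⋆ₐ[ℂ] (H →L[ℂ] H)) (y : H →L[ℂ] H) (v w : H) (t : ℝ) : ℂ :=
  ⟪v, Ψ (expB t) (y (Ψ (expB (-t)) w))⟫_ℂ

lemma mc_cont (h : FC R D Ψ) (y : H →L[ℂ] H) (v w : H) : Continuous (mc Ψ y v w) := by
  have h1 : mc Ψ y v w = fun t => ⟪Ψ (expB (-t)) v, y (Ψ (expB (-t)) w)⟫_ℂ := by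
    funext t
    unfold mc
    rw [psi_star Ψ (expB (-t)), expB_star, neg_neg]
  rw [h1]
  have h2 := (U_cont h v).comp continuous_neg
  have h3 := (U_cont h w).comp continuous_neg
  exact Continuous.inner h2 (y.continuous.comp h3)

lemma mc_norm (Ψ : (ℝ →ᵇ ℂ) →⋆ₐ[ℂ] (H →L[ℂ] H)) (y : H →L[ℂ] H) (v w : H) (t : ℝ) :
    ‖mc Ψ y v w t‖ ≤ ‖v‖ * (‖y‖ * ‖w‖) := by
  unfold mc
  refine (norm_inner_le_norm _ _).trans ?_
  gcongr
  refine (U_norm Ψ _ _).trans ?_
  refine (y.le_opNorm _).trans ?_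
  gcongr
  exact U_norm Ψ _ _

lemma ker_int : Integrable (fun t : ℝ => (2 * Real.cosh (Real.pi * t))⁻¹) := by
  have h := Pool.Agent.Helper5.TTD.integrable_inv_cosh.const_mul (2⁻¹ : ℝ)
  refine h.congr (Eventually.of_forall fun t => ?_)
  change 2⁻¹ * (Real.cosh (Real.pi * t))⁻¹ = (2 * Real.cosh (Real.pi * t))⁻¹
  rw [mul_inv]

lemma mc_int (h : FC R D Ψ) (y : H →L[ℂ] H) (v w : H) (β : ℝ) :
    Integrable (fun t => ker β t * mc Ψ y v w t) := by
  refine Integrable.mono' (ker_int.mul_const (‖v‖ * (‖y‖ * ‖w‖)))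
    ((ker_cont β).mul (mc_cont h y v w)).aestronglyMeasurable
    (Eventually.of_forall fun t => ?_)
  rw [norm_mul, ker_norm]
  gcongr
  exact mc_norm Ψ y v w t

theorem integral_formula (h : FC R D Ψ) (hJ : JD D Ψ J) {x' x : H →L[ℂ] H} {β : ℝ}
    (hx : ∀ v : H, D (x' (D v)) =
      ((Real.exp (-β / 2) : ℝ) : ℂ) • ((2 : ℂ) • x (R v) - R (x (R v))) +
      ((Real.exp (β / 2) : ℝ) : ℂ) • R (x ((2 : ℂ) • v - R v))) (v w : H) :
    ⟪v, x w⟫_ℂ = ∫ t : ℝ, ker β t * mc Ψ (hJ.cj x') v w t := by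
  set y := hJ.cj x' with hy
  have h1 : Tendsto (fun n => ⟪Ψ (ctB n) v, x (Ψ (ctB n) w)⟫_ℂ) atTop (𝓝 ⟪v, x w⟫_ℂ) :=
    (tendsto_ct h v).inner ((x.continuous.tendsto w).comp (tendsto_ct h w))
  have hb : ∀ (n : ℕ) (u : H), ‖Ψ (ctB n) u‖ ≤ ‖u‖ := by
    intro n u
    refine (psi_norm_apply Ψ _ u).trans ?_
    calc ‖ctB n‖ * ‖u‖ ≤ 1 * ‖u‖ := by gcongr; exact ctB_norm n
      _ = ‖u‖ := one_mul _
  have h2 : Tendsto (fun n => ∫ t : ℝ, ker β t * mc Ψ y (Ψ (ctB n) v) (Ψ (ctB n) w) t) atTop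
      (𝓝 (∫ t : ℝ, ker β t * mc Ψ y v w t)) := by
    refine tendsto_integral_of_dominated_convergence
      (fun t => (2 * Real.cosh (Real.pi * t))⁻¹ * (‖v‖ * (‖y‖ * ‖w‖))) ?_ ?_ ?_ ?_
    · intro n
      exact ((ker_cont β).mul (mc_cont h y _ _)).aestronglyMeasurable
    · exact ker_int.mul_const _
    · intro n
      refine Eventually.of_forall fun t => ?_
      rw [norm_mul, ker_norm]
      gcongr
      refine (mc_norm Ψ y _ _ t).trans ?_
      gcongr
      · exact hb n v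
      · exact hb n w
    · refine Eventually.of_forall fun t => ?_
      refine Tendsto.const_mul _ ?_
      unfold mc
      refine (tendsto_ct h v).inner ?_
      have h3 : Continuous (fun u => Ψ (expB t) (y (Ψ (expB (-t)) u))) := by fun_prop
      exact (h3.tendsto w).comp (tendsto_ct h w)
  refine tendsto_nhds_unique h1 ?_
  refine h2.congr fun n => ?_
  exact (integral_cut h hJ hx n v w).symm

/-- uniqueness of the Fourier transform -/
lemma eq_zero_of_fourier {F : ℝ → ℂ} (hc : Continuous F)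
    (hi : Integrable (fun t => ((2 * Real.cosh (Real.pi * t) : ℝ) : ℂ)⁻¹ * F t))
    (h0 : ∀ β : ℝ, ∫ t : ℝ, ker β t * F t = 0) (t : ℝ) : F t = 0 := by
  set g : ℝ → ℂ := fun t => ((2 * Real.cosh (Real.pi * t) : ℝ) : ℂ)⁻¹ * F t with hg
  have hne : ∀ t : ℝ, ((2 * Real.cosh (Real.pi * t) : ℝ) : ℂ) ≠ 0 := by
    intro t
    have := Real.cosh_pos (Real.pi * t)
    exact_mod_cast (by positivity : (2 * Real.cosh (Real.pi * t) : ℝ) ≠ 0)
  have hgc : Continuous g := by
    refine Continuous.mul (Continuous.inv₀ (by fun_prop) hne) hc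
  have hF : 𝓕 g = 0 := by
    funext b
    rw [Real.fourier_eq', Pi.zero_apply, ← h0 (2 * Real.pi * b)]
    congr 1
    funext t
    unfold ker
    simp only [smul_eq_mul, hg, div_eq_mul_inv]
    rw [← mul_assoc]
    congr 3
    simp only [RCLike.inner_apply, conj_trivial]
    push_cast
    ring
  have h1 := Continuous.fourierInv_fourier_eq hgc hi (by rw [hF]; exact integrable_zero _ _ _)
  rw [hF] at h1
  have h2 : g t = 0 := by
    rw [← h1]
    rw [Real.fourierInv_eq']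
    simp
  exact (mul_eq_zero.1 h2).resolve_left (inv_ne_zero (hne t))

theorem tomita {A : VonNeumannAlgebra H} {ξ : H} (h' : TTData A ξ R D)
    (hcyc : Dense (orb A ξ : Set H)) (hcyc' : Dense (orb A.commutant ξ : Set H))
    (h : FC R D Ψ) (hJ : JD D Ψ J) {x' : H →L[ℂ] H} (hx' : x' ∈ A.commutant) (t : ℝ) :
    Ψ (expB t) * hJ.cj x' * Ψ (expB (-t)) ∈ A := by
  rw [mem_iff_commutes]
  intro z hz
  ext w
  rw [← sub_eq_zero]
  refine ext_inner_left ℂ fun v => ?_
  rw [inner_zero_right, inner_sub_right]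
  set y := hJ.cj x' with hy
  have key : ∀ t : ℝ, mc Ψ y ((star z) v) w t - mc Ψ y v (z w) t = 0 := by
    refine eq_zero_of_fourier ((mc_cont h y _ _).sub (mc_cont h y _ _)) ?_ ?_
    · have h1 := (mc_int h y ((star z) v) w 0).sub (mc_int h y v (z w) 0)
      refine h1.congr (Eventually.of_forall fun t => ?_)
      have h2 : ker 0 t = ((2 * Real.cosh (Real.pi * t) : ℝ) : ℂ)⁻¹ := by
        unfold ker
        simp
      simp only [Pi.sub_apply, h2]
      ring
    · intro β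
      obtain ⟨x, hxA, hx⟩ := h'.exists_RN hcyc hcyc' hx' β
      have h1 := integral_formula h hJ hx ((star z) v) w
      have h2 := integral_formula h hJ hx v (z w)
      have h3 : (fun t => ker β t * (mc Ψ y ((star z) v) w t - mc Ψ y v (z w) t)) =
          fun t => ker β t * mc Ψ y ((star z) v) w t - ker β t * mc Ψ y v (z w) t := by
        funext t
        rw [mul_sub]
      rw [h3, integral_sub (mc_int h y _ _ β) (mc_int h y _ _ β), ← h1, ← h2, inner_star_left,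
        commute_apply hxA hz, sub_self]
  have h1 := key t
  unfold mc at h1
  rw [inner_star_left] at h1
  exact h1

end Pool.Agent.Helper43.TTF
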